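import Mathlib
import Pool.Agent.H33.Uncountable

set_option autoImplicit false

namespace Pool.Agent.Results.MP_c5c71e_co.SuperLinear

universe u

/-- The chromatic number of an arbitrary graph, as a cardinal: the least cardinal `κ` such that
the graph has a proper colouring with `κ` colours. -/
noncomputable def chromaticCardinal {V : Type u} (G : SimpleGraph V) : Cardinal.{u} :=
  sInf {κ : Cardinal.{u} | ∃ α : Type u, Cardinal.mk α = κ ∧ Nonempty (G.Coloring α)}

/-- `β(F)`: the least number of edges whose removal from `F` leaves a bipartite graph. -/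
noncomputable def beta {W : Type u} (F : SimpleGraph W) : ℕ :=
  sInf {k : ℕ | ∃ E : Finset (Sym2 W), (E : Set (Sym2 W)) ⊆ F.edgeSet ∧ E.card = k ∧
    (F.deleteEdges (E : Set (Sym2 W))).IsBipartite}

/-- `h_G(n)`: the maximum of `β(G[S])` over all `n`-element vertex sets `S`. -/
noncomputable def h {V : Type u} (G : SimpleGraph V) (n : ℕ) : ℕ :=
  sSup {b : ℕ | ∃ S : Finset V, S.card = n ∧ b = beta (G.induce (S : Set V))}

theorem beta_le {W : Type u} [Fintype W] (F : SimpleGraph W) (N : ℕ)
    (hN : Fintype.card W ≤ N) : beta F ≤ Fintype.card (Sym2 (Fin N)) := by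
  classical
  have h1 : beta F ≤ F.edgeFinset.card := by
    apply Nat.sInf_le
    refine ⟨F.edgeFinset, by simp, rfl, ?_⟩
    refine ⟨SimpleGraph.Coloring.mk (fun _ => 0) ?_⟩
    intro v w hvw
    rw [SimpleGraph.deleteEdges_adj] at hvw
    exact absurd ((SimpleGraph.mem_edgeSet F).2 hvw.1) (by simpa using hvw.2)
  refine h1.trans ?_
  obtain ⟨f⟩ : Nonempty (W ↪ Fin N) := by
    apply Function.Embedding.nonempty_of_card_le
    simpa using hN
  calc F.edgeFinset.card ≤ Fintype.card (Sym2 W) := Finset.card_le_univ _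
    _ ≤ Fintype.card (Sym2 (Fin N)) :=
      Fintype.card_le_of_injective _ (Sym2.map.injective f.injective)

/-- the set defining `h` is bounded, so `h` really is a maximum -/
theorem bddAbove_h {V : Type u} (G : SimpleGraph V) (n : ℕ) :
    BddAbove {b : ℕ | ∃ S : Finset V, S.card = n ∧ b = beta (G.induce (S : Set V))} := by
  refine ⟨Fintype.card (Sym2 (Fin n)), ?_⟩
  rintro b ⟨S, hS, rfl⟩
  exact beta_le (W := (S : Set V)) _ n (by simp [hS])

/-- a set of size `n` has a cut with at most `h G n` monochromatic edges -/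
theorem exists_cut {V : Type u} (G : SimpleGraph V) (n : ℕ) (W : Finset V) (hW : W.card = n) :
    ∃ κ : V → Bool, (Pool.Agent.H33.medges G κ W).card ≤ h G n := by
  classical
  have hb : beta (G.induce (W : Set V)) ≤ h G n := le_csSup (bddAbove_h G n) ⟨W, hW, rfl⟩
  have hne : {k : ℕ | ∃ E : Finset (Sym2 (W : Set V)),
      (E : Set (Sym2 (W : Set V))) ⊆ (G.induce (W : Set V)).edgeSet ∧ E.card = k ∧
      ((G.induce (W : Set V)).deleteEdges (E : Set (Sym2 (W : Set V)))).IsBipartite}.Nonempty := by
    refine ⟨_, (G.induce (W : Set V)).edgeFinset, by simp, rfl, ?_⟩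
    refine ⟨SimpleGraph.Coloring.mk (fun _ => 0) ?_⟩
    intro v w hvw
    rw [SimpleGraph.deleteEdges_adj] at hvw
    exact absurd ((SimpleGraph.mem_edgeSet _).2 hvw.1) (by simpa using hvw.2)
  obtain ⟨E, hE1, hE2, ⟨col⟩⟩ := Nat.sInf_mem hne
  let κ : V → Bool := fun v => if hv : v ∈ (W : Set V) then decide (col ⟨v, hv⟩ = 0) else false
  refine ⟨κ, le_trans ?_ hb⟩
  have hE2' : E.card = beta (G.induce (W : Set V)) := hE2
  rw [← hE2']
  have hsub : Pool.Agent.H33.medges G κ W ⊆ E.image (Sym2.map Subtype.val) := by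
    intro e he
    rw [Pool.Agent.H33.mem_medges] at he
    obtain ⟨h1, h2, h3⟩ := he
    induction e using Sym2.ind with
    | _ x y =>
      have hx : x ∈ (W : Set V) := h1 x (by simp)
      have hy : y ∈ (W : Set V) := h1 y (by simp)
      rw [Finset.mem_image]
      refine ⟨s(⟨x, hx⟩, ⟨y, hy⟩), ?_, by simp⟩
      by_contra hn
      have hadj : ((G.induce (W : Set V)).deleteEdges (E : Set (Sym2 (W : Set V)))).Adj
          ⟨x, hx⟩ ⟨y, hy⟩ := by
        rw [SimpleGraph.deleteEdges_adj]
        exact ⟨(SimpleGraph.mem_edgeSet G).1 h2, by simpa using hn⟩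
      have hcol := col.valid hadj
      have hκ := h3 x (by simp) y (by simp)
      simp only [κ, dif_pos hx, dif_pos hy] at hκ
      apply hcol
      generalize col ⟨x, hx⟩ = a at hκ ⊢
      generalize col ⟨y, hy⟩ = b at hκ ⊢
      revert a b
      decide
  exact (Finset.card_le_card hsub).trans Finset.card_image_le

/-- **Every graph `G` with uncountable chromatic number satisfies `h_G(n) / n → ∞`.** -/
theorem result {V : Type u} (G : SimpleGraph V) (hG : Cardinal.aleph 1 ≤ chromaticCardinal G) :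
    Filter.Tendsto (fun n : ℕ => (h G n : ℝ) / n) Filter.atTop Filter.atTop := by
  by_contra hcon
  rw [Filter.tendsto_atTop] at hcon
  push Not at hcon
  obtain ⟨b, hb⟩ := hcon
  obtain ⟨C, hCb⟩ := exists_nat_ge b
  have hHyp : Pool.Agent.H33.Hyp G C := by
    intro N
    obtain ⟨n, hn, hlt⟩ := (hb.and_eventually (Filter.eventually_ge_atTop (N + 1))).exists
    refine ⟨n, by omega, fun W hW => ?_⟩
    obtain ⟨κ, hκ⟩ := exists_cut G n W hW
    refine ⟨κ, hκ.trans ?_⟩
    have hnpos : (0 : ℝ) < n := by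
      have : 0 < n := by omega
      exact_mod_cast this
    rw [div_lt_iff₀ hnpos] at hn
    have h1 : (h G n : ℝ) ≤ C * n := by
      calc (h G n : ℝ) ≤ b * n := hn.le
        _ ≤ C * n := mul_le_mul_of_nonneg_right hCb hnpos.le
    exact_mod_cast h1
  obtain ⟨c, hc⟩ := Pool.Agent.H33.countable_coloring C _ V rfl G hHyp
  have hle : chromaticCardinal G ≤ Cardinal.aleph0 := by
    apply csInf_le'
    refine ⟨ULift.{u} ℕ, by simp, ⟨SimpleGraph.Coloring.mk (fun v => ULift.up (c v)) ?_⟩⟩
    intro v w hvw h1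
    exact hc v w hvw (congrArg ULift.down h1)
  exact absurd (hG.trans hle) (not_le.2 Cardinal.aleph0_lt_aleph_one)

end Pool.Agent.Results.MP_c5c71e_co.SuperLinear
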